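import Pool.Agent.W809.ZQ.Stm

set_option autoImplicit false

/-!
No small elements of a closed subgroup in a transversal to its Lie algebra.
-/

open Set Filter Topology

namespace Pool.Agent.W382.ZQ

open Pool.Agent.W809.ZQ

open scoped Matrix.Norms.L2Operator

variable {n : ℕ}

theorem smul_real (r : ℝ) (X : Mt n) : r • X = (r : ℂ) • X := by
  ext i j; simp

theorem norm_smul_real (r : ℝ) (X : Mt n) : ‖r • X‖ = |r| * ‖X‖ := by
  rw [smul_real, norm_smul]; simp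

theorem exp_cont : Continuous (NormedSpace.exp : Mt n → Mt n) := by
  let _ : NormedAlgebra ℚ (Mt n) := NormedAlgebra.restrictScalars ℚ ℂ (Mt n)
  exact NormedSpace.exp_continuous

theorem exp_littleO : (fun V : Mt n => NormedSpace.exp V - 1 - V) =o[𝓝 0] fun V : Mt n => V := by
  have h : HasFDerivAt (NormedSpace.exp : Mt n → Mt n) (1 : Mt n →L[ℂ] Mt n) 0 :=
    hasFDerivAt_exp_zero
  rw [hasFDerivAt_iff_isLittleO_nhds_zero] at h
  simpa [NormedSpace.exp_zero] using h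

theorem tele {A B : Mt n} {M : ℝ} (hA : A ∈ Matrix.unitaryGroup (Fin n) ℂ) (m : ℕ)
    (hB : ∀ j ≤ m, ‖B ^ j‖ ≤ M) : ‖A ^ m - B ^ m‖ ≤ m * (‖A - B‖ * M) := by
  induction m with
  | zero => simp
  | succ m ih =>
    have h1 := ih (fun j hj => hB j (by omega))
    have e : A ^ (m + 1) - B ^ (m + 1) = A * (A ^ m - B ^ m) + (A - B) * B ^ m := by
      rw [pow_succ', pow_succ', mul_sub, sub_mul]
      abel
    rw [e]
    calc ‖A * (A ^ m - B ^ m) + (A - B) * B ^ m‖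
        ≤ ‖A * (A ^ m - B ^ m)‖ + ‖(A - B) * B ^ m‖ := norm_add_le _ _
      _ ≤ ‖A ^ m - B ^ m‖ + ‖A - B‖ * M := by
          rw [CStarRing.norm_mem_unitary_mul _ hA]
          have h2 : ‖(A - B) * B ^ m‖ ≤ ‖A - B‖ * ‖B ^ m‖ := norm_mul_le _ _
          have h3 : ‖A - B‖ * ‖B ^ m‖ ≤ ‖A - B‖ * M :=
            mul_le_mul_of_nonneg_left (hB m (by omega)) (norm_nonneg _)
          linarith
      _ ≤ ((m + 1 : ℕ) : ℝ) * (‖A - B‖ * M) := by
          push_cast
          linarith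

/-- the matrices of a closed subgroup form a closed set -/
theorem isClosed_mat {N : Subgroup (U n)} (hN : IsClosed (N : Set (U n))) :
    IsClosed ((fun u : U n => (u : Mt n)) '' (N : Set (U n))) :=
  (hN.isCompact.image continuous_subtype_val).isClosed

theorem limit_mem {N : Subgroup (U n)} (hN : IsClosed (N : Set (U n))) {V : ℕ → Mt n} {X : Mt n}
    (hV0 : Tendsto V atTop (𝓝 0)) (hVne : ∀ k, V k ≠ 0)
    (hVN : ∀ k, ∃ u ∈ N, (u : Mt n) = 1 + V k)
    (hX : Tendsto (fun k => ‖V k‖⁻¹ • V k) atTop (𝓝 X)) (t : ℝ) (ht : 0 ≤ t) :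
    ∃ u ∈ N, (u : Mt n) = NormedSpace.exp (t • X) := by
  have hpos : ∀ k, 0 < ‖V k‖ := fun k => norm_pos_iff.2 (hVne k)
  let m : ℕ → ℕ := fun k => ⌊t / ‖V k‖⌋₊
  have hm1 : ∀ k, (m k : ℝ) * ‖V k‖ ≤ t := fun k => by
    have h1 : (m k : ℝ) ≤ t / ‖V k‖ := Nat.floor_le (div_nonneg ht (hpos k).le)
    rwa [le_div_iff₀ (hpos k)] at h1
  have hm2 : ∀ k, t - ‖V k‖ ≤ (m k : ℝ) * ‖V k‖ := fun k => by
    have h1 : t / ‖V k‖ < m k + 1 := Nat.lt_floor_add_one _
    rw [div_lt_iff₀ (hpos k)] at h1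
    linarith
  have hn0 : Tendsto (fun k => ‖V k‖) atTop (𝓝 0) := by
    have := hV0.norm
    rwa [norm_zero] at this
  have hmt : Tendsto (fun k => (m k : ℝ) * ‖V k‖) atTop (𝓝 t) := by
    refine tendsto_of_tendsto_of_tendsto_of_le_of_le ?_ tendsto_const_nhds hm2 hm1
    have := (tendsto_const_nhds (x := t) (f := (atTop : Filter ℕ))).sub hn0
    rwa [sub_zero] at this
  have hmV : Tendsto (fun k => m k • V k) atTop (𝓝 (t • X)) := by
    have h1 : Tendsto (fun k => ((m k : ℝ) * ‖V k‖) • (‖V k‖⁻¹ • V k)) atTop (𝓝 (t • X)) :=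
      hmt.smul hX
    refine h1.congr (fun k => ?_)
    rw [smul_smul, mul_assoc, mul_inv_cancel₀ (hpos k).ne', mul_one, Nat.cast_smul_eq_nsmul]
  have hexp : Tendsto (fun k => NormedSpace.exp (V k) ^ m k) atTop
      (𝓝 (NormedSpace.exp (t • X))) := by
    have h1 := (exp_cont.tendsto (t • X)).comp hmV
    refine h1.congr (fun k => ?_)
    show NormedSpace.exp (m k • V k) = _
    rw [Matrix.exp_nsmul]
  -- bound on the powers
  have : ProperSpace (Mt n) := FiniteDimensional.proper ℂ (Mt n)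
  obtain ⟨M, hM⟩ : ∃ M : ℝ, ∀ Z : Mt n, ‖Z‖ ≤ t → ‖NormedSpace.exp Z‖ ≤ M := by
    have hc : IsCompact ((fun Z : Mt n => NormedSpace.exp Z) '' Metric.closedBall (0 : Mt n) t) :=
      (isCompact_closedBall 0 t).image exp_cont
    obtain ⟨M, hM⟩ := hc.isBounded.exists_norm_le
    exact ⟨M, fun Z hZ => hM _ ⟨Z, by simpa using hZ, rfl⟩⟩
  have hM0 : 0 ≤ M := (norm_nonneg _).trans (hM 0 (by simpa using ht))
  have hpow : ∀ k, ∀ j ≤ m k, ‖NormedSpace.exp (V k) ^ j‖ ≤ M := by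
    intro k j hj
    rw [← Matrix.exp_nsmul]
    apply hM
    calc ‖j • V k‖ ≤ j * ‖V k‖ := norm_nsmul_le
      _ ≤ m k * ‖V k‖ := by
          apply mul_le_mul_of_nonneg_right _ (hpos k).le
          exact_mod_cast hj
      _ ≤ t := hm1 k
  have hunit : ∀ k, (1 + V k) ∈ Matrix.unitaryGroup (Fin n) ℂ := fun k => by
    obtain ⟨u, _, hu⟩ := hVN k
    rw [← hu]; exact u.2
  -- the difference tends to zero
  have hdiff : Tendsto (fun k => (1 + V k) ^ m k - NormedSpace.exp (V k) ^ m k) atTop (𝓝 0) := by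
    rw [tendsto_zero_iff_norm_tendsto_zero]
    have hlo : Tendsto (fun V : Mt n => ‖NormedSpace.exp V - 1 - V‖ / ‖V‖) (𝓝 0) (𝓝 0) :=
      exp_littleO.norm_norm.tendsto_div_nhds_zero
    have h1 : Tendsto (fun k => t * M * (‖NormedSpace.exp (V k) - 1 - V k‖ / ‖V k‖)) atTop
        (𝓝 0) := by
      have := (hlo.comp hV0).const_mul (t * M)
      rwa [mul_zero] at this
    refine squeeze_zero (fun k => norm_nonneg _) (fun k => ?_) h1
    have h2 := tele (hunit k) (m k) (hpow k)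
    have h3 : ‖1 + V k - NormedSpace.exp (V k)‖ = ‖NormedSpace.exp (V k) - 1 - V k‖ := by
      rw [← norm_neg]
      congr 1
      abel
    rw [h3] at h2
    refine h2.trans ?_
    set c : ℝ := ‖NormedSpace.exp (V k) - 1 - V k‖ with hc
    have hc0 : 0 ≤ c := norm_nonneg _
    have h4 : (m k : ℝ) * (c * M) = ((m k : ℝ) * ‖V k‖) * (M * (c / ‖V k‖)) := by
      field_simp [(hpos k).ne']
    rw [h4]
    have h5 : 0 ≤ M * (c / ‖V k‖) := mul_nonneg hM0 (div_nonneg hc0 (hpos k).le)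
    have h6 := mul_le_mul_of_nonneg_right (hm1 k) h5
    linarith
  have hlim : Tendsto (fun k => (1 + V k) ^ m k) atTop (𝓝 (NormedSpace.exp (t • X))) := by
    have := hdiff.add hexp
    rw [zero_add] at this
    refine this.congr (fun k => ?_)
    abel
  have hcl := isClosed_mat hN
  have hmem : NormedSpace.exp (t • X) ∈ (fun u : U n => (u : Mt n)) '' (N : Set (U n)) := by
    refine hcl.mem_of_tendsto hlim (Eventually.of_forall fun k => ?_)
    obtain ⟨u, huN, hu⟩ := hVN k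
    refine ⟨u ^ m k, N.pow_mem huN _, ?_⟩
    show ((u ^ m k : U n) : Mt n) = _
    rw [SubmonoidClass.coe_pow, hu]
  obtain ⟨u, huN, hu⟩ := hmem
  exact ⟨u, huN, hu⟩

theorem limit_LL {N : Subgroup (U n)} (hN : IsClosed (N : Set (U n))) {V : ℕ → Mt n} {X : Mt n}
    (hV0 : Tendsto V atTop (𝓝 0)) (hVne : ∀ k, V k ≠ 0)
    (hVN : ∀ k, ∃ u ∈ N, (u : Mt n) = 1 + V k)
    (hX : Tendsto (fun k => ‖V k‖⁻¹ • V k) atTop (𝓝 X)) : X ∈ LL N := by
  intro t
  rcases le_total 0 t with ht | ht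
  · exact limit_mem hN hV0 hVne hVN hX t ht
  · obtain ⟨u, huN, hu⟩ := limit_mem hN hV0 hVne hVN hX (-t) (by linarith)
    refine ⟨u⁻¹, N.inv_mem huN, ?_⟩
    have h1 : (u : Mt n) * NormedSpace.exp (t • X) = 1 := by
      rw [hu, ← Matrix.exp_add_of_commute]
      · rw [neg_smul, neg_add_cancel, NormedSpace.exp_zero]
      · exact ((Commute.refl X).smul_left (-t)).smul_right t
    have h2 : ((u⁻¹ : U n) : Mt n) * (u : Mt n) = 1 := by
      rw [← Submonoid.coe_mul, inv_mul_cancel]; rfl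
    calc ((u⁻¹ : U n) : Mt n) = ((u⁻¹ : U n) : Mt n) * ((u : Mt n) * NormedSpace.exp (t • X)) := by
          rw [h1, mul_one]
      _ = NormedSpace.exp (t • X) := by rw [← mul_assoc, h2, one_mul]

theorem trv : S_TRV := by
  intro n N hN W hW
  by_contra hcon
  push Not at hcon
  have h1 : ∀ k : ℕ, ∃ V : Mt n, V ∈ Metric.ball (0 : Mt n) (1 / ((k : ℝ) + 1)) ∧ V ∈ W ∧
      (∃ u ∈ N, (u : Mt n) = 1 + V) ∧ V ≠ 0 := fun k =>
    hcon _ (Metric.ball_mem_nhds _ (by positivity))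
  choose V hVb hVW hVN hVne using h1
  have hV0 : Tendsto V atTop (𝓝 0) := by
    rw [tendsto_zero_iff_norm_tendsto_zero]
    refine squeeze_zero (fun k => norm_nonneg _) (fun k => ?_)
      (tendsto_one_div_add_atTop_nhds_zero_nat (𝕜 := ℝ))
    exact (mem_ball_zero_iff.1 (hVb k)).le
  have : ProperSpace (Mt n) := FiniteDimensional.proper ℂ (Mt n)
  have hpos : ∀ k, 0 < ‖V k‖ := fun k => norm_pos_iff.2 (hVne k)
  have hsph : ∀ k, ‖V k‖⁻¹ • V k ∈ Metric.sphere (0 : Mt n) 1 := fun k => by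
    rw [mem_sphere_zero_iff_norm, norm_smul_real, abs_of_pos (inv_pos.2 (hpos k)),
      inv_mul_cancel₀ (hpos k).ne']
  obtain ⟨X, hXs, φ, hφ, hlim⟩ := (isCompact_sphere (0 : Mt n) 1).tendsto_subseq hsph
  have hXW : X ∈ W := by
    have hcl : IsClosed (W : Set (Mt n)) := Submodule.closed_of_finiteDimensional W
    exact hcl.mem_of_tendsto hlim (Eventually.of_forall fun k => W.smul_mem _ (hVW _))
  have hXL : X ∈ LL N := limit_LL hN (V := V ∘ φ) (hV0.comp hφ.tendsto_atTop)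
    (fun k => hVne _) (fun k => hVN _) hlim
  have hX0 := hW X hXL hXW
  rw [mem_sphere_zero_iff_norm, hX0, norm_zero] at hXs
  exact zero_ne_one hXs

end Pool.Agent.W382.ZQ
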